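import Pool.Agent.helper36.HK.Spec

/-!
# PPR: the lattice sums of the characters with principal finite part
-/

set_option autoImplicit false

open Finset
open Pool.Agent.FI

noncomputable section

namespace Pool.Agent.HK

theorem PPR_N8_mul (z w : ℤ × ℤ) : N8 (mul8 z w) = N8 z * N8 w := by
  unfold N8 mul8; ring

theorem PPR_nn_mul (z w : ℤ × ℤ) : nn (mul8 z w) = nn z * nn w := by
  unfold nn; rw [PPR_N8_mul, Int.natAbs_mul]

theorem PPR_N8_cj (z : ℤ × ℤ) : N8 (cj z) = N8 z := by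
  unfold N8 cj; ring

theorem PPR_nn_cj (z : ℤ × ℤ) : nn (cj z) = nn z := by
  unfold nn; rw [PPR_N8_cj]

theorem PPR_cj_cj (z : ℤ × ℤ) : cj (cj z) = z := by
  unfold cj; simp

theorem PPR_cj_mul (z w : ℤ × ℤ) : cj (mul8 z w) = mul8 (cj z) (cj w) := by
  unfold cj mul8
  ext
  · simp
  · simp; ring

theorem PPR_Dv_cj (w z : ℤ × ℤ) : Dv w (cj z) ↔ Dv (cj w) z := by
  constructor
  · rintro ⟨v, hv⟩
    refine ⟨cj v, ?_⟩
    rw [← PPR_cj_mul, hv, PPR_cj_cj]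
  · rintro ⟨v, hv⟩
    refine ⟨cj v, ?_⟩
    rw [← hv, PPR_cj_mul, PPR_cj_cj]

theorem PPR_Dv_iff (w z : ℤ × ℤ) (hw : N8 w ≠ 0) :
    Dv w z ↔ N8 w ∣ (mul8 z (cj w)).1 ∧ N8 w ∣ (mul8 z (cj w)).2 := by
  constructor
  · rintro ⟨v, rfl⟩
    refine ⟨⟨v.1, ?_⟩, ⟨v.2, ?_⟩⟩
    · unfold mul8 cj N8; ring
    · unfold mul8 cj N8; ring
  · rintro ⟨⟨a, ha⟩, ⟨b, hb⟩⟩
    refine ⟨(a, b), ?_⟩
    have h1 : N8 w * (w.1 * a + 8 * w.2 * b) = N8 w * z.1 := by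
      have : N8 w * (w.1 * a + 8 * w.2 * b) = w.1 * (N8 w * a) + 8 * w.2 * (N8 w * b) := by ring
      rw [this, ← ha, ← hb]
      unfold mul8 cj N8
      ring
    have h2 : N8 w * (w.1 * b + w.2 * a) = N8 w * z.2 := by
      have : N8 w * (w.1 * b + w.2 * a) = w.1 * (N8 w * b) + w.2 * (N8 w * a) := by ring
      rw [this, ← ha, ← hb]
      unfold mul8 cj N8
      ring
    have e1 := mul_left_cancel₀ hw h1
    have e2 := mul_left_cancel₀ hw h2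
    unfold mul8
    ext
    · simpa using e1
    · simpa using e2

theorem PPR_Dv_per (w z z' : ℤ × ℤ) (hw : N8 w ≠ 0) (h1 : N8 w ∣ z.1 - z'.1) (h2 : N8 w ∣ z.2 - z'.2) :
    Dv w z ↔ Dv w z' := by
  rw [PPR_Dv_iff w z hw, PPR_Dv_iff w z' hw]
  have e1 : N8 w ∣ (mul8 z (cj w)).1 - (mul8 z' (cj w)).1 := by
    have : (mul8 z (cj w)).1 - (mul8 z' (cj w)).1 =
        (z.1 - z'.1) * w.1 + (z.2 - z'.2) * (8 * (-w.2)) := by unfold mul8 cj; ring
    rw [this]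
    exact dvd_add (Dvd.dvd.mul_right h1 _) (Dvd.dvd.mul_right h2 _)
  have e2 : N8 w ∣ (mul8 z (cj w)).2 - (mul8 z' (cj w)).2 := by
    have : (mul8 z (cj w)).2 - (mul8 z' (cj w)).2 =
        (z.1 - z'.1) * (-w.2) + (z.2 - z'.2) * w.1 := by unfold mul8 cj; ring
    rw [this]
    exact dvd_add (Dvd.dvd.mul_right h1 _) (Dvd.dvd.mul_right h2 _)
  rw [dvd_iff_dvd_of_dvd_sub e1, dvd_iff_dvd_of_dvd_sub e2]

theorem PPR_cop (d : ℕ) (z : ℤ × ℤ) : Nat.Coprime (nn z) d ↔ IsCoprime (N8 z) (d : ℤ) := by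
  rw [Int.isCoprime_iff_gcd_eq_one, Int.gcd_eq_natAbs, Int.natAbs_natCast]
  rfl

theorem PPR_cop_per (d : ℕ) (z z' : ℤ × ℤ) (h1 : (d : ℤ) ∣ z.1 - z'.1) (h2 : (d : ℤ) ∣ z.2 - z'.2) :
    Nat.Coprime (nn z) d ↔ Nat.Coprime (nn z') d := by
  rw [PPR_cop, PPR_cop]
  obtain ⟨a, ha⟩ := h1
  obtain ⟨b, hb⟩ := h2
  have e : N8 z = N8 z' + (d : ℤ) * (a * (z.1 + z'.1) - 8 * (b * (z.2 + z'.2))) := by
    have e1 : z.1 = z'.1 + d * a := by linarith
    have e2 : z.2 = z'.2 + d * b := by linarith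
    have : N8 z - N8 z' = (z.1 - z'.1) * (z.1 + z'.1) - 8 * ((z.2 - z'.2) * (z.2 + z'.2)) := by
      unfold N8; ring
    rw [ha, hb] at this
    linear_combination this
  rw [e]
  exact IsCoprime.add_mul_left_left_iff

open scoped Classical in
/-- the difference of the two divisibility conditions -/
def PPR_ch (d : ℕ) (w z : ℤ × ℤ) : ℂ :=
  if z.1 % 2 = 1 ∧ Nat.Coprime (nn z) d then
    ((if Dv w z then (1 : ℂ) else 0) - (if Dv (cj w) z then (1 : ℂ) else 0)) else 0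

theorem PPR_ch_norm (d : ℕ) (w z : ℤ × ℤ) : ‖PPR_ch d w z‖ ≤ 1 := by
  unfold PPR_ch
  split_ifs <;> simp

theorem PPR_ch_cj (d : ℕ) (w z : ℤ × ℤ) : PPR_ch d w (cj z) = - PPR_ch d w z := by
  unfold PPR_ch
  rw [PPR_nn_cj, PPR_Dv_cj w z, PPR_Dv_cj (cj w) z, PPR_cj_cj]
  have : (cj z).1 = z.1 := rfl
  rw [this]
  split_ifs <;> simp

open scoped Classical in
theorem PPR_ch_per (d : ℕ) (w : ℤ × ℤ) (hw : N8 w ≠ 0) (z z' : ℤ × ℤ)
    (h1 : ((2 * d * nn w : ℕ) : ℤ) ∣ z.1 - z'.1) (h2 : ((2 * d * nn w : ℕ) : ℤ) ∣ z.2 - z'.2) :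
    PPR_ch d w z = PPR_ch d w z' := by
  have a1 : (2 : ℤ) ∣ ((2 * d * nn w : ℕ) : ℤ) := ⟨(d * nn w : ℕ), by push_cast; ring⟩
  have a2 : (d : ℤ) ∣ ((2 * d * nn w : ℕ) : ℤ) := ⟨(2 * nn w : ℕ), by push_cast; ring⟩
  have a3 : N8 w ∣ ((2 * d * nn w : ℕ) : ℤ) := by
    have : N8 w ∣ ((nn w : ℕ) : ℤ) := by
      unfold nn
      exact (Int.dvd_natAbs).mpr dvd_rfl
    push_cast
    exact Dvd.dvd.mul_left this _
  have a4 : N8 (cj w) ∣ ((2 * d * nn w : ℕ) : ℤ) := by rw [PPR_N8_cj]; exact a3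
  have b1 : z.1 % 2 = 1 ↔ z'.1 % 2 = 1 := by
    have := a1.trans h1
    omega
  have b2 := PPR_cop_per d z z' (a2.trans h1) (a2.trans h2)
  have b3 := PPR_Dv_per w z z' hw (a3.trans h1) (a3.trans h2)
  have b4 := PPR_Dv_per (cj w) z z' (by rw [PPR_N8_cj]; exact hw) (a4.trans h1) (a4.trans h2)
  unfold PPR_ch
  exact if_congr (and_congr b1 b2) (congrArg₂ (fun x y : ℂ => x - y) (if_congr b3 rfl rfl)
    (if_congr b4 rfl rfl)) rfl

theorem PPR_odd_sum (D : ℕ) (g : ℤ → ℂ) (hper : ∀ b : ℤ, g (b + D) = g b) (hodd : ∀ b : ℤ, g (-b) = - g b) :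
    ∑ b ∈ range D, g (b : ℤ) = 0 := by
  have h1 : ∑ b ∈ range D, g ((b : ℤ) + 1) = ∑ b ∈ range D, g (b : ℤ) := by
    have e1 := Finset.sum_range_succ (fun b : ℕ => g (b : ℤ)) D
    have e2 := Finset.sum_range_succ' (fun b : ℕ => g (b : ℤ)) D
    have e3 : g ((D : ℕ) : ℤ) = g (((0 : ℕ) : ℤ)) := by
      have := hper 0
      simpa using this
    rw [e1] at e2
    simp only [e3] at e2
    have := add_right_cancel e2
    rw [this]
    apply Finset.sum_congr rfl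
    intro b _
    push_cast
    rfl
  have h2 : ∑ b ∈ range D, g (b : ℤ) = - ∑ b ∈ range D, g ((b : ℤ) + 1) := by
    rw [← Finset.sum_range_reflect (fun b : ℕ => g (b : ℤ)) D, ← Finset.sum_neg_distrib]
    apply Finset.sum_congr rfl
    intro b hb
    rw [← hodd, ← hper (-((b : ℤ) + 1))]
    congr 1
    have := Finset.mem_range.mp hb
    omega
  rw [h1] at h2
  exact self_eq_neg.mp h2

theorem PPR_ch_sum (d : ℕ) (w : ℤ × ℤ) (hw : N8 w ≠ 0) :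
    ∑ v ∈ range (2 * d * nn w) ×ˢ range (2 * d * nn w), PPR_ch d w ((v.1 : ℤ), (v.2 : ℤ)) = 0 := by
  rw [Finset.sum_product]
  apply Finset.sum_eq_zero
  intro a _
  apply PPR_odd_sum (2 * d * nn w) (fun b : ℤ => PPR_ch d w ((a : ℤ), b))
  · intro b
    apply PPR_ch_per d w hw
    · simp
    · simp
  · intro b
    have := PPR_ch_cj d w ((a : ℤ), b)
    unfold cj at this
    exact this

open scoped Classical in
theorem PPR_mem (hSIZ : SIZ_stmt) (z : ℤ × ℤ) (u : ℕ) : z ∈ FF u ↔ Fd z ∧ nn z ≤ u := by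
  constructor
  · intro h
    unfold FF at h
    rw [Finset.mem_filter] at h
    exact h.2
  · intro h
    have h1 := (hSIZ z h.1).2.2.2.1
    unfold FF at h1 ⊢
    rw [Finset.mem_filter, Finset.mem_product, Finset.mem_Icc, Finset.mem_Icc] at h1 ⊢
    obtain ⟨⟨⟨q1, q2⟩, ⟨q3, q4⟩⟩, _⟩ := h1
    have h2 : (nn z : ℤ) ≤ u := by exact_mod_cast h.2
    exact ⟨⟨⟨by linarith, by linarith⟩, ⟨by linarith, by linarith⟩⟩, h⟩

open scoped Classical in
theorem PPR_div (hMUL : MUL_stmt) (hSRF : SRF_stmt) (hSIZ : SIZ_stmt) (d : ℕ) (Ψ : ℤ × ℤ → ℂ) (hΨ : UC d Ψ)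
    (v : ℤ × ℤ) (hv : v.1 % 2 = 1) (hn : 0 < nn v) (y : ℕ) :
    ∑ z ∈ FF (nn v * y) with Dv v z, Ψ z = Ψ v * ∑ z ∈ FF y, Ψ z := by
  have key : ∀ z ∈ (FF (nn v * y)).filter (fun z => Dv v z), nn z / nn v ∈ Ioc 0 y := by
    intro z hz
    rw [Finset.mem_filter, PPR_mem hSIZ] at hz
    obtain ⟨⟨h1, h2⟩, ⟨u, hu⟩⟩ := hz
    have h3 := (hSIZ z h1).2.2.1
    rw [← hu, PPR_nn_mul] at h2 h3 ⊢
    rw [Nat.mul_div_cancel_left _ hn]
    rw [Finset.mem_Ioc]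
    exact ⟨Nat.pos_of_mul_pos_left h3 |> fun _ => Nat.pos_of_ne_zero (by
      intro h0; rw [h0] at h3; simp at h3), Nat.le_of_mul_le_mul_left h2 hn⟩
  rw [← Finset.sum_fiberwise_of_maps_to key]
  rw [← hSRF.1 Ψ y, Finset.mul_sum]
  apply Finset.sum_congr rfl
  intro m hm
  rw [Finset.mem_Ioc] at hm
  rw [← hMUL d Ψ hΨ v hv m hm.1]
  apply Finset.sum_congr _ (fun _ _ => rfl)
  ext z
  simp only [Finset.mem_filter, PPR_mem hSIZ]
  constructor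
  · rintro ⟨⟨⟨h1, h2⟩, ⟨u, hu⟩⟩, h3⟩
    have h4 : nn z = m * nn v := by
      rw [← hu, PPR_nn_mul] at h3 ⊢
      rw [Nat.mul_div_cancel_left _ hn] at h3
      rw [h3, mul_comm]
    exact ⟨⟨h1, h4.le⟩, h4, ⟨u, hu⟩⟩
  · rintro ⟨⟨h1, _⟩, h4, h5⟩
    refine ⟨⟨⟨h1, ?_⟩, h5⟩, ?_⟩
    · rw [h4, mul_comm]
      exact Nat.mul_le_mul_left _ hm.2
    · rw [h4, Nat.mul_div_cancel _ hn]

theorem PPR_yy_cj (w : ℤ × ℤ) : yy (cj w) = - yy w := by
  unfold yy cj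
  rw [← Real.log_inv, inv_div]
  push_cast
  simp only [neg_mul, sub_neg_eq_add, ← sub_eq_add_neg]

theorem PPR_exp_diff (θ : ℝ) : ‖Complex.exp (θ * Complex.I) - Complex.exp (-θ * Complex.I)‖ = 2 * |Real.sin θ| := by
  have h : Complex.exp (θ * Complex.I) - Complex.exp (-θ * Complex.I) = ((2 * Real.sin θ : ℝ) : ℂ) * Complex.I := by
    rw [Complex.exp_mul_I, Complex.exp_mul_I, Complex.cos_neg, Complex.sin_neg]
    push_cast
    ring
  rw [h, norm_mul, Complex.norm_I, mul_one, Complex.norm_real, Real.norm_eq_abs, abs_mul]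
  norm_num

theorem PPR_kappa (ψ : ℤ × ℤ → ℂ) (κ : ℝ) (h31 : ψ (3, 1) = 1) (hκ : κ ≠ 0) (hU : UInv ψ 0 κ) :
    3 / 2 ≤ |κ| := by
  unfold UInv at hU
  rw [h31, pow_zero, one_mul, one_mul] at hU
  obtain ⟨k, hk⟩ := Complex.exp_eq_one_iff.mp hU
  have hs : √8 < (3 : ℝ) := by
    rw [Real.sqrt_lt' (by norm_num)]; norm_num
  have hs0 : 0 ≤ √(8 : ℝ) := Real.sqrt_nonneg _
  have hl : Real.log (3 + √8) ≤ 2 := by
    rw [Real.log_le_iff_le_exp (by linarith)]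
    have h1 : (2.7182818283 : ℝ) < Real.exp 1 := Real.exp_one_gt_d9
    have h2 : Real.exp 2 = Real.exp 1 * Real.exp 1 := by rw [← Real.exp_add]; norm_num
    rw [h2]
    nlinarith
  have hl0 : 0 < Real.log (3 + √8) := Real.log_pos (by linarith)
  have hk' : κ * (2 * Real.log (3 + √8)) = (k : ℝ) * (2 * Real.pi) := by
    have h3 : ((κ * (2 * Real.log (3 + √8)) : ℝ) : ℂ) * Complex.I =
        ((k * (2 * Real.pi) : ℝ) : ℂ) * Complex.I := by
      push_cast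
      rw [hk]
      ring
    exact_mod_cast mul_right_cancel₀ Complex.I_ne_zero h3
  have hk0 : k ≠ 0 := by
    intro h0
    rw [h0, Int.cast_zero, zero_mul] at hk'
    rcases mul_eq_zero.mp hk' with h | h
    · exact hκ h
    · linarith
  have hk1 : (1 : ℝ) ≤ |(k : ℝ)| := by
    have := Int.one_le_abs hk0
    exact_mod_cast this
  have e1 : |κ| * (2 * Real.log (3 + √8)) = |(k : ℝ)| * (2 * Real.pi) := by
    rw [← abs_of_pos (show (0 : ℝ) < 2 * Real.log (3 + √8) by linarith), ← abs_mul, hk', abs_mul,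
      abs_of_pos (show (0 : ℝ) < 2 * Real.pi by positivity)]
  have hpi := Real.pi_gt_three
  have e2 : 2 * Real.pi ≤ |κ| * (2 * Real.log (3 + √8)) := by
    rw [e1]
    nlinarith
  have e3 : |κ| * (2 * Real.log (3 + √8)) ≤ |κ| * (2 * 2) :=
    mul_le_mul_of_nonneg_left (by linarith) (abs_nonneg _)
  linarith

open scoped Classical in
theorem PPR_point (d : ℕ) (ψ : ℤ × ℤ → ℂ) (hψ : IsRC d ψ) (i : ℕ) (κ : ℝ)
    (hp : ∀ z, Nat.Coprime (nn z) d → ψ z = 1) (w z : ℤ × ℤ) (Y : ℕ) :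
    PPR_ch d w z * Fy i κ Y z = if Fd z ∧ nn z ≤ Y then
      ((if Dv w z then HC ψ 0 i κ z else 0) - (if Dv (cj w) z then HC ψ 0 i κ z else 0)) else 0 := by
  by_cases hF : Fd z ∧ nn z ≤ Y
  · rw [if_pos hF]
    obtain ⟨⟨ho, hc⟩, hY⟩ := hF
    by_cases hcop : Nat.Coprime (nn z) d
    · have e : HC ψ 0 i κ z = Fy i κ Y z := by
        unfold HC Fy
        rw [if_pos ⟨hc, hY⟩, hp z hcop]
        simp
      unfold PPR_ch
      rw [if_pos ⟨ho, hcop⟩, e, sub_mul, ite_mul, ite_mul, one_mul, zero_mul]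
    · have e : HC ψ 0 i κ z = 0 := by
        unfold HC
        rw [hψ.2.2.1 z hcop]
        simp
      unfold PPR_ch
      rw [if_neg (fun h => hcop h.2), e]
      simp
  · rw [if_neg hF]
    by_cases ho : z.1 % 2 = 1
    · have : Fy i κ Y z = 0 := by
        unfold Fy
        rw [if_neg]
        intro h
        exact hF ⟨⟨ho, h.1⟩, h.2⟩
      rw [this, mul_zero]
    · unfold PPR_ch
      rw [if_neg (fun h => ho h.1), zero_mul]

theorem PPR_supp (i : ℕ) (κ : ℝ) (Y : ℕ) (z : ℤ × ℤ) (h : Fy i κ Y z ≠ 0) :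
    |z.1| ≤ ((2 * Y : ℕ) : ℤ) ∧ |z.2| ≤ ((2 * Y : ℕ) : ℤ) := by
  unfold Fy at h
  split_ifs at h with hc
  swap
  · exact absurd rfl h
  obtain ⟨hc, hY⟩ := hc
  have hY' : |N8 z| ≤ (Y : ℤ) := by
    have : ((nn z : ℕ) : ℤ) ≤ Y := by exact_mod_cast hY
    unfold nn at this
    rwa [Int.natCast_natAbs] at this
  obtain ⟨b1, b2⟩ := abs_le.mp hY'
  unfold N8 at b1 b2
  have s1 := sq_abs z.1
  have s2 := sq_abs z.2
  have n1 := abs_nonneg z.1
  have n2 := abs_nonneg z.2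
  push_cast
  rcases hc with hc | hc
  · have hz1 : |z.1| = z.1 := abs_of_nonneg (by linarith)
    have q1 : z.1 ^ 2 ≤ 2 * Y := by nlinarith
    have q2 : |z.1| ≤ |z.1| ^ 2 := by
      rcases eq_or_lt_of_le n1 with h0 | h0
      · rw [← h0]; norm_num
      · nlinarith
    constructor
    · linarith
    · linarith
  · have hz2 : |z.2| = z.2 := abs_of_nonneg (by linarith)
    have q1 : 4 * z.2 ^ 2 ≤ Y := by nlinarith
    have q2 : |z.2| ≤ |z.2| ^ 2 := by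
      rcases eq_or_lt_of_le n2 with h0 | h0
      · rw [← h0]; norm_num
      · nlinarith
    constructor
    · nlinarith
    · nlinarith

open scoped Classical in
theorem PPR_ident (hMUL : MUL_stmt) (hUCH : UCH_stmt) (hSRF : SRF_stmt)
    (hSIZ : SIZ_stmt) (d : ℕ) (ψ : ℤ × ℤ → ℂ) (hψ : IsRC d ψ) (i : ℕ) (κ : ℝ)
    (hp : ∀ z, Nat.Coprime (nn z) d → ψ z = 1) (hU : UInv ψ 0 κ) (w : ℤ × ℤ) (hw : w.1 % 2 = 1)
    (hn : 0 < nn w) (y : ℕ) :
    ∑ z ∈ Bx (2 * (nn w * y)), PPR_ch d w z * Fy i κ (nn w * y) z =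
      (HC ψ 0 i κ w - HC ψ 0 i κ (cj w)) * ∑ z ∈ FF y, HC ψ 0 i κ z := by
  have hUC := hUCH d ψ 0 i κ hψ hU
  have h1 := PPR_div hMUL hSRF hSIZ d _ hUC w hw hn y
  have h2 := PPR_div hMUL hSRF hSIZ d _ hUC (cj w) hw (by rw [PPR_nn_cj]; exact hn) y
  rw [PPR_nn_cj] at h2
  rw [sub_mul, ← h1, ← h2]
  rw [Finset.sum_congr rfl (fun z _ => PPR_point d ψ hψ i κ hp w z (nn w * y))]
  rw [← Finset.sum_filter]
  have e : (Bx (2 * (nn w * y))).filter (fun z => Fd z ∧ nn z ≤ nn w * y) = FF (nn w * y) := by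
    unfold Bx FF
    push_cast
    rfl
  rw [e, Finset.sum_sub_distrib, ← Finset.sum_filter, ← Finset.sum_filter]

theorem PPR (hVAR : VAR_stmt) (hVAB : VAB_stmt) (hWCH : WCH_stmt) (hMUL : MUL_stmt) (hUCH : UCH_stmt)
    (hSRF : SRF_stmt) (hSIZ : SIZ_stmt) : PPR_stmt := by
  obtain ⟨CV, hCV0, hCV⟩ := hVAB
  refine ⟨600 ^ 3 * 18 * CV, by positivity, ?_⟩
  intro d hd ψ hψ i κ hp hκ hU y
  have hd0 : 0 < d := hd.pos
  have h31 : ψ (3, 1) = 1 := by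
    apply hp
    have : nn (3, 1) = 1 := by decide
    rw [this]
    exact Nat.coprime_one_left d
  have hk := PPR_kappa ψ κ h31 hκ hU
  obtain ⟨w, hw1, hw2, hw3, hw4⟩ := hWCH d hd0 κ hk
  -- the norm of w
  have hN : ((2 * d : ℕ) : ℤ) ∣ N8 w - 1 := by
    have : N8 w - 1 = (w.1 - 1) * (w.1 + 1) - w.2 * (8 * w.2) := by unfold N8; ring
    rw [this]
    exact dvd_sub (Dvd.dvd.mul_right hw1 _) (Dvd.dvd.mul_right hw2 _)
  have hodd : w.1 % 2 = 1 := by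
    have h2 : (2 : ℤ) ∣ w.1 - 1 := Dvd.dvd.trans ⟨(d : ℤ), by push_cast; ring⟩ hw1
    omega
  have hN0 : N8 w ≠ 0 := by
    have h2 : (2 : ℤ) ∣ N8 w - 1 := Dvd.dvd.trans ⟨(d : ℤ), by push_cast; ring⟩ hN
    omega
  have hn : 0 < nn w := Int.natAbs_pos.mpr hN0
  have hcop : Nat.Coprime (nn w) d := by
    rw [PPR_cop]
    obtain ⟨a, ha⟩ := hN
    have : N8 w = 1 + (d : ℤ) * (2 * a) := by push_cast at ha; linarith
    rw [this]
    exact (IsCoprime.add_mul_left_left_iff).mpr isCoprime_one_left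
  -- the difference
  have hdiff : 1 ≤ ‖HC ψ 0 i κ w - HC ψ 0 i κ (cj w)‖ := by
    have e1 : HC ψ 0 i κ w = ((N8 w).sign : ℂ) ^ i * Complex.exp ((κ * yy w : ℝ) * Complex.I) := by
      unfold HC
      rw [hp w hcop]
      push_cast
      simp
    have e2 : HC ψ 0 i κ (cj w) = ((N8 w).sign : ℂ) ^ i * Complex.exp (-(κ * yy w : ℝ) * Complex.I) := by
      unfold HC
      rw [hp (cj w) (by rw [PPR_nn_cj]; exact hcop), PPR_yy_cj, PPR_N8_cj]
      push_cast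
      simp
    rw [e1, e2, ← mul_sub, norm_mul, PPR_exp_diff, norm_pow]
    have e3 : ‖((N8 w).sign : ℂ)‖ = 1 := by
      rcases lt_or_gt_of_ne hN0 with h | h
      · rw [Int.sign_eq_neg_one_of_neg h]; simp
      · rw [Int.sign_eq_one_of_pos h]; simp
    rw [e3, one_pow, one_mul]
    linarith
  set S : ℂ := ∑ z ∈ FF y, HC ψ 0 i κ z with hS
  have hid := PPR_ident hMUL hUCH hSRF hSIZ d ψ hψ i κ hp hU w hodd hn y
  have hD0 : 0 < 2 * d * nn w := by positivity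
  have hvar := hVAR (2 * d * nn w) hD0 (PPR_ch d w) (PPR_ch_norm d w)
    (fun z z' h1 h2 => PPR_ch_per d w hN0 z z' h1 h2) (PPR_ch_sum d w hN0) (2 * (nn w * y))
    (Fy i κ (nn w * y)) (fun z hz => PPR_supp i κ (nn w * y) z hz)
  rw [hid, norm_mul] at hvar
  have hvab := hCV i κ (nn w * y) (2 * (nn w * y))
  have hS1 : ‖S‖ ≤ ((2 * d * nn w : ℕ) : ℝ) ^ 3 * (CV * (1 + |κ|) * √((nn w * y : ℕ) : ℝ)) := by
    calc ‖S‖ = 1 * ‖S‖ := (one_mul _).symm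
      _ ≤ ‖HC ψ 0 i κ w - HC ψ 0 i κ (cj w)‖ * ‖S‖ := mul_le_mul_of_nonneg_right hdiff (norm_nonneg _)
      _ ≤ _ := hvar
      _ ≤ _ := mul_le_mul_of_nonneg_left hvab (by positivity)
  -- sizes
  have hκ0 := abs_nonneg κ
  have hd1 : (1 : ℝ) ≤ d := by exact_mod_cast hd0
  set Q : ℝ := d * (1 + |κ|) with hQ
  have hQ1 : 1 ≤ Q := by rw [hQ]; nlinarith
  have hdQ : (d : ℝ) ≤ Q := by rw [hQ]; nlinarith
  have hκQ : 1 + |κ| ≤ Q := by rw [hQ]; nlinarith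
  have hD : ((2 * d * nn w : ℕ) : ℝ) ≤ 600 * Q ^ 3 := by
    push_cast
    calc 2 * (d : ℝ) * (nn w : ℝ) ≤ 2 * Q * (300 * Q ^ 2) := by
          apply mul_le_mul (by linarith) hw3 (by positivity) (by positivity)
      _ = 600 * Q ^ 3 := by ring
  have hsq : √((nn w * y : ℕ) : ℝ) ≤ 18 * Q * √(y : ℝ) := by
    push_cast
    rw [Real.sqrt_mul (by positivity)]
    apply mul_le_mul_of_nonneg_right _ (Real.sqrt_nonneg _)
    rw [Real.sqrt_le_left (by positivity)]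
    nlinarith [sq_nonneg Q]
  calc ‖S‖ ≤ _ := hS1
    _ ≤ (600 * Q ^ 3) ^ 3 * (CV * Q * (18 * Q * √(y : ℝ))) := by
        apply mul_le_mul
        · exact pow_le_pow_left₀ (by positivity) hD 3
        · apply mul_le_mul
          · exact mul_le_mul_of_nonneg_left hκQ hCV0.le
          · exact hsq
          · positivity
          · positivity
        · positivity
        · positivity
    _ = 600 ^ 3 * 18 * CV * (Q ^ 11 * 1) * √(y : ℝ) := by ring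
    _ ≤ 600 ^ 3 * 18 * CV * (Q ^ 11 * Q) * √(y : ℝ) := by gcongr
    _ = 600 ^ 3 * 18 * CV * Q ^ 12 * √(y : ℝ) := by ring

end Pool.Agent.HK
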